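import Pool.Agent.R579.Apep.Main

/-!
# MP_3d49e4_an: negative answer to Q1 and Q2

There are a real Banach space `X` and a point `x₀` which is an almost preserved extreme point
(APEP) of the unit ball `B_X` such that, in the projective tensor product `Z = X ⊗̂_π X`, the
point `x₀ ⊗ x₀` is not an APEP of the unit ball `B_Z` (this disproves Q2), and not an APEP of
the closed convex hull of `B_X ⊗ B_X` (this disproves Q1 with `C = D = B_X`).

All definitions (`slice`, `WeaklyOpen`, `IsAPEP`, `IsProjTensor`, `tensorHull`) are in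
`Pool.Agent.R579.Apep.Defs`.
-/

set_option maxSynthPendingDepth 3

namespace Pool.Agent.Results.MP_3d49e4_an.TensorNotAPEP

open Metric Set Pool.Agent.R579.Apep

/-- There is a real Banach space `X` with an APEP `x₀` of its unit ball such that the projective
tensor product `X ⊗̂_π X` exists and, in every realization `Z` of it, `x₀ ⊗ x₀` is neither an
APEP of `B_Z` nor an APEP of the closed convex hull of `B_X ⊗ B_X`. -/
theorem result :
    ∃ (X : Type) (_ : NormedAddCommGroup X) (_ : NormedSpace ℝ X) (_ : CompleteSpace X) (x₀ : X),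
      IsAPEP (closedBall (0 : X) 1) x₀ ∧
      (∃ (Z : Type) (_ : NormedAddCommGroup Z) (_ : NormedSpace ℝ Z) (_ : CompleteSpace Z)
        (τ : X →L[ℝ] X →L[ℝ] Z), IsProjTensor τ) ∧
      ∀ (Z : Type) (_ : NormedAddCommGroup Z) (_ : NormedSpace ℝ Z) (_ : CompleteSpace Z)
        (τ : X →L[ℝ] X →L[ℝ] Z), IsProjTensor τ →
        ¬ IsAPEP (closedBall (0 : Z) 1) (τ x₀ x₀) ∧
        ¬ IsAPEP (tensorHull τ (closedBall (0 : X) 1) (closedBall (0 : X) 1)) (τ x₀ x₀) := by
  obtain ⟨X, i1, i2, i3, ι, h⟩ := exists_atomic span_Gen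
  refine ⟨X, i1, i2, i3, ι (Finsupp.single Node.root 1), base_isAPEP h,
    exists_projTensor X X, ?_⟩
  intro Z j1 j2 j3 τ hτ
  have hball : ∀ x ∈ closedBall (0 : X) 1, ∀ y ∈ closedBall (0 : X) 1,
      τ x y ∈ closedBall (0 : Z) 1 := by
    intro x hx y hy
    have hx' : ‖x‖ ≤ 1 := by simpa using hx
    have hy' : ‖y‖ ≤ 1 := by simpa using hy
    have h1 := hτ.norm_le x y
    have h2 : ‖x‖ * ‖y‖ ≤ 1 * 1 := mul_le_mul hx' hy' (norm_nonneg _) zero_le_one
    rw [mem_closedBall, dist_zero_right]
    linarith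
  constructor
  · refine tensor_not_isAPEP h hτ (fun g hg g' hg' => ?_) (fun g hg g' hg' => ?_) (subset_refl _)
    · exact hball _ (mem_ball_of_gen h hg) _ (mem_ball_of_gen h hg')
    · have := hball _ (mem_ball_of_gen h hg) _ (mem_ball_of_gen h hg')
      rw [mem_closedBall, dist_zero_right] at this ⊢
      rwa [norm_neg]
  · refine tensor_not_isAPEP h hτ (fun g hg g' hg' => ?_) (fun g hg g' hg' => ?_) ?_
    · exact subset_closure (subset_convexHull ℝ _
        ⟨_, mem_ball_of_gen h hg, _, mem_ball_of_gen h hg', rfl⟩)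
    · refine subset_closure (subset_convexHull ℝ _
        ⟨-ι g, ?_, _, mem_ball_of_gen h hg', ?_⟩)
      · have := mem_ball_of_gen h hg
        rw [mem_closedBall, dist_zero_right] at this ⊢
        rwa [norm_neg]
      · rw [map_neg τ]
        rfl
    · refine closure_minimal (convexHull_min ?_ (convex_closedBall _ _)) isClosed_closedBall
      rintro _ ⟨x, hx, y, hy, rfl⟩
      exact hball x hx y hy

end Pool.Agent.Results.MP_3d49e4_an.TensorNotAPEP
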